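import Mathlib

namespace Pool.Agent.Results.MP_0d6f46_co.Gain

/-- The outcome (total of the mover, total of the other player) from a heap of size h with
subtraction set S. The mover uses convention c and the other player d, where true means
antagonistic and false friendly. With no legal move both sets are empty and the value is (0, 0). -/
noncomputable def o (S : Finset ℕ) (c d : Bool) (h : ℕ) : ℕ × ℕ :=
  let best := sSup {v | ∃ s ∈ S, ∃ _h : 0 < s ∧ s ≤ h, v = s + (o S d c (h - s)).2}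
  let opp := {w | ∃ s ∈ S, ∃ _h : 0 < s ∧ s ≤ h,
    s + (o S d c (h - s)).2 = best ∧ w = (o S d c (h - s)).1}
  (best, if c = true then sInf opp else sSup opp)
termination_by h
decreasing_by all_goals omega

lemma table (S : Finset ℕ) (T : Bool → Bool → ℕ → ℕ × ℕ) (N : ℕ)
    (H : ∀ h < N, ∀ c d : Bool, ((∀ s ∈ S, ¬ (0 < s ∧ s ≤ h)) ∧ T c d h = (0, 0)) ∨
      ((∃ s ∈ S, (0 < s ∧ s ≤ h) ∧ s + (T d c (h - s)).2 = (T c d h).1 ∧
          (T d c (h - s)).1 = (T c d h).2) ∧
        ∀ s ∈ S, 0 < s ∧ s ≤ h → s + (T d c (h - s)).2 ≤ (T c d h).1 ∧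
          (s + (T d c (h - s)).2 = (T c d h).1 →
            if c = true then (T c d h).2 ≤ (T d c (h - s)).1
            else (T d c (h - s)).1 ≤ (T c d h).2))) :
    ∀ h < N, ∀ c d, o S c d h = T c d h := by
  intro h
  induction h using Nat.strong_induction_on with
  | _ h ih =>
    intro hn c d
    have e : ∀ s, 0 < s ∧ s ≤ h → o S d c (h - s) = T d c (h - s) := fun s hs =>
      ih _ (by omega) (by omega) d c
    rw [o]
    rcases H h hn c d with ⟨h0, hT⟩ | ⟨⟨s0, hs0, l0, a0, b0⟩, hall⟩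
    · have e1 : {v | ∃ s ∈ S, ∃ _h : 0 < s ∧ s ≤ h, v = s + (o S d c (h - s)).2} = ∅ := by
        ext v
        simp only [Set.mem_ofPred_eq, Set.mem_empty_iff_false, iff_false]
        rintro ⟨s, hs, l, -⟩
        exact h0 s hs l
      have e2 : ∀ b, {w | ∃ s ∈ S, ∃ _h : 0 < s ∧ s ≤ h,
          s + (o S d c (h - s)).2 = b ∧ w = (o S d c (h - s)).1} = ∅ := by
        intro b
        ext v
        simp only [Set.mem_ofPred_eq, Set.mem_empty_iff_false, iff_false]
        rintro ⟨s, hs, l, -⟩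
        exact h0 s hs l
      simp only [e1, e2, hT]
      simp
    · have e1 : sSup {v | ∃ s ∈ S, ∃ _h : 0 < s ∧ s ≤ h, v = s + (o S d c (h - s)).2} =
          (T c d h).1 := by
        apply IsGreatest.csSup_eq
        refine ⟨⟨s0, hs0, l0, by rw [e s0 l0, a0]⟩, ?_⟩
        rintro v ⟨s, hs, l, rfl⟩
        rw [e s l]
        exact (hall s hs l).1
      simp only [e1]
      refine Prod.ext rfl ?_
      have mem : (T c d h).2 ∈ {w | ∃ s ∈ S, ∃ _h : 0 < s ∧ s ≤ h,
          s + (o S d c (h - s)).2 = (T c d h).1 ∧ w = (o S d c (h - s)).1} :=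
        ⟨s0, hs0, l0, by rw [e s0 l0, a0], by rw [e s0 l0, b0]⟩
      cases c with
      | true =>
        simp only [if_true]
        apply IsLeast.csInf_eq
        refine ⟨mem, ?_⟩
        rintro v ⟨s, hs, l, h1, rfl⟩
        rw [e s l] at h1 ⊢
        simpa using (hall s hs l).2 h1
      | false =>
        simp only [Bool.false_eq_true, if_false]
        apply IsGreatest.csSup_eq
        refine ⟨mem, ?_⟩
        rintro v ⟨s, hs, l, h1, rfl⟩
        rw [e s l] at h1 ⊢
        simpa using (hall s hs l).2 h1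

def T : Bool → Bool → ℕ → ℕ × ℕ
  | false, false, h => [(0, 0), (0, 0), (0, 0), (0, 0), (0, 0), (5, 0), (5, 0), (5, 0), (5, 0), (5, 0), (5, 5), (11,
    0), (11, 0), (11, 0), (11, 0), (15, 0), (15, 0), (15, 0), (15, 0), (15, 0), (15, 5), (16, 5),
    (22, 0), (22, 0), (24, 0), (24, 0), (24, 0), (24, 0), (24, 0), (24, 5), (24, 5), (24, 5), (27,
    5), (24, 5), (29, 5), (24, 11), (24, 11), (24, 11), (24, 11), (24, 15), (24, 15), (24, 15),
    (27, 15), (27, 16), (29, 15), (29, 16), (24, 22), (24, 22), (24, 24), (24, 24), (26, 24), (27,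
    24), (27, 24), (29, 24), (30, 24), (30, 24), (30, 24), (33, 24), (33, 24), (35, 24), (35, 24),
    (37, 24), (37, 24), (39, 24), (39, 24), (39, 26), (39, 27), (40, 27), (44, 24), (44, 24), (46,
    24), (46, 24), (48, 24), (48, 24), (48, 26), (48, 27), (48, 27), (48, 29), (48, 30), (48, 30),
    (48, 30), (48, 33), (48, 33), (48, 35), (48, 35), (48, 37), (48, 37), (48, 39), (49, 39), (50,
    39)].getD h (0, 0)
  | false, true, h => [(0, 0), (0, 0), (0, 0), (0, 0), (0, 0), (5, 0), (5, 0), (5, 0), (5, 0), (5, 0), (5, 5), (11,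
    0), (11, 0), (11, 0), (11, 0), (15, 0), (15, 0), (15, 0), (15, 0), (15, 0), (15, 5), (16, 5),
    (22, 0), (22, 0), (24, 0), (24, 0), (24, 0), (24, 0), (24, 0), (24, 5), (24, 5), (24, 5), (27,
    5), (24, 5), (29, 5), (24, 11), (24, 11), (24, 11), (24, 11), (24, 15), (24, 15), (24, 15),
    (27, 15), (27, 16), (29, 15), (29, 16), (24, 22), (24, 22), (24, 24), (24, 24), (26, 24), (27,
    24), (27, 24), (29, 24), (30, 24), (30, 24), (30, 24), (33, 24), (33, 24), (35, 24), (35, 24),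
    (37, 24), (37, 24), (39, 24), (39, 24), (39, 26), (39, 27), (40, 27), (44, 24), (44, 24), (46,
    24), (46, 24), (48, 24), (48, 24), (48, 26), (48, 27), (48, 27), (48, 29), (48, 30), (48, 30),
    (48, 30), (48, 33), (48, 33), (48, 35), (48, 35), (48, 37), (48, 37), (48, 39), (49, 39), (49,
    40)].getD h (0, 0)
  | true, false, h => [(0, 0), (0, 0), (0, 0), (0, 0), (0, 0), (5, 0), (5, 0), (5, 0), (5, 0), (5, 0), (5, 5), (11,
    0), (11, 0), (11, 0), (11, 0), (15, 0), (15, 0), (15, 0), (15, 0), (15, 0), (15, 5), (16, 5),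
    (22, 0), (22, 0), (24, 0), (24, 0), (24, 0), (24, 0), (24, 0), (24, 5), (24, 5), (24, 5), (27,
    5), (24, 5), (29, 5), (24, 11), (24, 11), (24, 11), (24, 11), (24, 15), (24, 15), (24, 15),
    (27, 15), (27, 16), (29, 15), (29, 16), (24, 22), (24, 22), (24, 24), (24, 24), (26, 24), (27,
    24), (27, 24), (29, 24), (30, 24), (30, 24), (30, 24), (33, 24), (33, 24), (35, 24), (35, 24),
    (37, 24), (37, 24), (39, 24), (39, 24), (39, 24), (39, 27), (40, 27), (44, 24), (44, 24), (46,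
    24), (46, 24), (48, 24), (48, 24), (48, 26), (48, 27), (48, 27), (48, 29), (48, 30), (48, 30),
    (48, 30), (48, 33), (48, 33), (48, 35), (48, 35), (48, 37), (48, 37), (48, 39), (49, 39), (50,
    39)].getD h (0, 0)
  | true, true, h => [(0, 0), (0, 0), (0, 0), (0, 0), (0, 0), (5, 0), (5, 0), (5, 0), (5, 0), (5, 0), (5, 5), (11,
    0), (11, 0), (11, 0), (11, 0), (15, 0), (15, 0), (15, 0), (15, 0), (15, 0), (15, 5), (16, 5),
    (22, 0), (22, 0), (24, 0), (24, 0), (24, 0), (24, 0), (24, 0), (24, 5), (24, 5), (24, 5), (27,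
    5), (24, 5), (29, 5), (24, 11), (24, 11), (24, 11), (24, 11), (24, 15), (24, 15), (24, 15),
    (27, 15), (27, 16), (29, 15), (29, 16), (24, 22), (24, 22), (24, 24), (24, 24), (26, 24), (27,
    24), (27, 24), (29, 24), (30, 24), (30, 24), (30, 24), (33, 24), (33, 24), (35, 24), (35, 24),
    (37, 24), (37, 24), (39, 24), (39, 24), (39, 24), (39, 27), (40, 27), (44, 24), (44, 24), (46,
    24), (46, 24), (48, 24), (48, 24), (48, 26), (48, 27), (48, 27), (48, 29), (48, 30), (48, 30),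
    (48, 30), (48, 33), (48, 33), (48, 35), (48, 35), (48, 37), (48, 37), (48, 39), (49, 39), (49,
    40)].getD h (0, 0)

lemma tab : ∀ h < 90, ∀ c d, o {5, 11, 15, 22, 24} c d h = T c d h :=
  table _ T 90 (by decide +kernel)

theorem result : ∃ (S : Finset ℕ) (h : ℕ), S.Nonempty ∧ (∀ s ∈ S, 0 < s) ∧
    (o S true false h).2 < (o S true true h).2 := by
  refine ⟨{5, 11, 15, 22, 24}, 89, by decide, by decide, ?_⟩
  rw [tab _ (by norm_num), tab _ (by norm_num)]
  decide

end Pool.Agent.Results.MP_0d6f46_co.Gain
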